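import Mathlib

/-!
# Adaptive strategies and the halving argument
-/

set_option autoImplicit false

open Finset

namespace Pool.Agent.V8H45.US

/-- An adaptive strategy for an unknown function from `X` to `Y`: it stops with an element of `X`,
or it asks for the value of the function at `x` and continues according to the answer. -/
inductive Strat (X Y : Type) : Type
  | stop (x : X) : Strat X Y
  | ask (x : X) (next : Y → Strat X Y) : Strat X Y

namespace Strat

variable {X Y : Type}

/-- the result for the function `f` -/
def result : Strat X Y → (X → Y) → X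
  | stop x, _ => x
  | ask x next, f => (next (f x)).result f

/-- the number of values asked for the function `f` -/
def count : Strat X Y → (X → Y) → ℕ
  | stop _, _ => 0
  | ask x next, f => (next (f x)).count f + 1

end Strat

/-- **Halving.** For a family of at most `2 ^ k` bijections, `k` values suffice to find the point
where the value is `y₀`. -/
theorem halving {X Y : Type} [Fintype X] [Nonempty X] [DecidableEq Y] (y₀ : Y) (k : ℕ) :
    ∀ C : Finset (X → Y), (∀ f ∈ C, Function.Bijective f) → C.card ≤ 2 ^ k →
      ∃ T : Strat X Y, ∀ f ∈ C, f (T.result f) = y₀ ∧ T.count f ≤ k := by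
  classical
  induction k with
  | zero =>
    intro C hC hk
    rcases C.eq_empty_or_nonempty with rfl | ⟨f, hf⟩
    · exact ⟨.stop (Classical.arbitrary X), fun f hf => absurd hf (by simp)⟩
    · obtain ⟨x, hx⟩ := (hC f hf).2 y₀
      refine ⟨.stop x, fun g hg => ?_⟩
      have hfg : g = f := card_le_one.1 (by simpa using hk) g hg f hf
      subst hfg
      exact ⟨hx, le_rfl⟩
  | succ k ih =>
    intro C hC hk
    rcases C.eq_empty_or_nonempty with rfl | ⟨f₀, hf₀⟩
    · exact ⟨.stop (Classical.arbitrary X), fun f hf => absurd hf (by simp)⟩
    -- continue with a smaller family after each answer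
    have step : ∀ (x : X), (∀ y, y ≠ y₀ → 2 * (C.filter fun f => f x = y).card ≤ C.card) →
        ∀ y, y ≠ y₀ → ∃ T : Strat X Y, ∀ f ∈ C, f x = y → f (T.result f) = y₀ ∧ T.count f ≤ k := by
      intro x hx y hy
      have h1 := hx y hy
      obtain ⟨T, hT⟩ := ih (C.filter fun f => f x = y) (fun f hf => hC f (mem_filter.1 hf).1)
        (by rw [pow_succ] at hk; omega)
      exact ⟨T, fun f hf hfx => hT f (mem_filter.2 ⟨hf, hfx⟩)⟩
    by_cases hA : ∃ x, ∀ y, 2 * (C.filter fun f => f x = y).card ≤ C.card
    · obtain ⟨x, hx⟩ := hA
      have h2 : ∀ y, ∃ T : Strat X Y, ∀ f ∈ C, f x = y →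
          f (T.result f) = y₀ ∧ T.count f ≤ k := by
        intro y
        have h1 := hx y
        obtain ⟨T, hT⟩ := ih (C.filter fun f => f x = y) (fun f hf => hC f (mem_filter.1 hf).1)
          (by rw [pow_succ] at hk; omega)
        exact ⟨T, fun f hf hfx => hT f (mem_filter.2 ⟨hf, hfx⟩)⟩
      choose T hT using h2
      refine ⟨.ask x T, fun f hf => ?_⟩
      have := hT (f x) f hf rfl
      exact ⟨this.1, by simpa [Strat.count] using this.2⟩
    · push Not at hA
      choose σ hσ using hA
      -- the majority function is injective
      have hinj : Function.Injective σ := by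
        intro x x' hxx'
        by_contra hne
        have h1 := hσ x
        have h2 := hσ x'
        have h3 : ((C.filter fun f => f x = σ x) ∩ (C.filter fun f => f x' = σ x')).Nonempty := by
          rw [← card_pos]
          have h4 := card_union_add_card_inter (C.filter fun f => f x = σ x)
            (C.filter fun f => f x' = σ x')
          have h5 : ((C.filter fun f => f x = σ x) ∪ (C.filter fun f => f x' = σ x')).card
              ≤ C.card := card_le_card (union_subset (filter_subset _ _) (filter_subset _ _))
          omega
        obtain ⟨f, hf⟩ := h3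
        rw [mem_inter, mem_filter, mem_filter] at hf
        exact hne ((hC f hf.1.1).1 (by rw [hf.1.2, hf.2.2, hxx']))
      have hY : Fintype Y := Fintype.ofBijective f₀ (hC f₀ hf₀)
      have hcard : Fintype.card X = Fintype.card Y := Fintype.card_of_bijective (hC f₀ hf₀)
      have hbij : Function.Bijective σ :=
        (Fintype.bijective_iff_injective_and_card σ).2 ⟨hinj, hcard⟩
      obtain ⟨x, hx⟩ := hbij.2 y₀
      have h2 : ∀ y, ∃ T : Strat X Y, ∀ f ∈ C, f x = y →
          f (T.result f) = y₀ ∧ T.count f ≤ k := by
        intro y
        by_cases hy : y = y₀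
        · exact ⟨.stop x, fun f _ hfx => ⟨by rw [← hy]; exact hfx, by simp [Strat.count]⟩⟩
        · refine step x (fun y' hy' => ?_) y hy
          have h3 := hσ x
          have h4 : Disjoint (C.filter fun f => f x = σ x) (C.filter fun f => f x = y') := by
            rw [disjoint_filter]
            intro f _ hf1 hf2
            exact hy' (by rw [← hf2, hf1, hx])
          have h5 : ((C.filter fun f => f x = σ x) ∪ (C.filter fun f => f x = y')).card
              ≤ C.card := card_le_card (union_subset (filter_subset _ _) (filter_subset _ _))
          rw [card_union_of_disjoint h4] at h5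
          omega
      choose T hT using h2
      refine ⟨.ask x T, fun f hf => ?_⟩
      have := hT (f x) f hf rfl
      exact ⟨this.1, by simpa [Strat.count] using this.2⟩

/-! ### Pivoting -/

/-- A pivoting strategy: it stops at the present vertex `S` of the cube, or moves along an edge to
the vertex `symmDiff S {i}` and continues according to the value which it sees there. -/
inductive Piv (n : ℕ) (Y : Type) : Type
  | stop : Piv n Y
  | move (i : Fin n) (next : Y → Piv n Y) : Piv n Y

namespace Piv

variable {n : ℕ} {Y : Type}

/-- the last vertex, starting from `S` -/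
def result (f : Finset (Fin n) → Y) : Piv n Y → Finset (Fin n) → Finset (Fin n)
  | stop, S => S
  | move i next, S => (next (f (symmDiff S {i}))).result f (symmDiff S {i})

/-- the number of moves -/
def moves (f : Finset (Fin n) → Y) : Piv n Y → Finset (Fin n) → ℕ
  | stop, _ => 0
  | move i next, S => (next (f (symmDiff S {i}))).moves f (symmDiff S {i}) + 1

theorem path (Q : Y → Piv n Y) (S' : Finset (Fin n)) (k : ℕ) : ∀ S : Finset (Fin n),
    (symmDiff S S').card = k + 1 → ∃ P : Piv n Y, ∀ f, P.result f S = (Q (f S')).result f S' ∧
      P.moves f S = (Q (f S')).moves f S' + (k + 1) := by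
  induction k with
  | zero =>
    intro S hS
    obtain ⟨i, hi⟩ := card_eq_one.1 hS
    have h1 : symmDiff S {i} = S' := by
      rw [← hi, ← symmDiff_assoc, symmDiff_self, bot_symmDiff]
    refine ⟨.move i Q, fun f => ?_⟩
    simp only [result, moves, h1]
    exact ⟨trivial, trivial⟩
  | succ k ih =>
    intro S hS
    obtain ⟨i, hi⟩ : (symmDiff S S').Nonempty := by
      rw [← card_pos]; omega
    have h1 : symmDiff (symmDiff S {i}) S' = (symmDiff S S').erase i := by
      ext j
      by_cases hj : j = i
      · subst hj
        simp only [mem_symmDiff, mem_singleton, mem_erase] at hi ⊢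
        tauto
      · simp only [mem_symmDiff, mem_singleton, mem_erase, hj]
        tauto
    have h2 : (symmDiff (symmDiff S {i}) S').card = k + 1 := by
      rw [h1, card_erase_of_mem hi, hS]; rfl
    obtain ⟨P, hP⟩ := ih _ h2
    refine ⟨.move i fun _ => P, fun f => ?_⟩
    obtain ⟨h3, h4⟩ := hP f
    exact ⟨h3, by simp only [moves, h4]; omega⟩

theorem exists_of_strat (T : Strat (Finset (Fin n)) Y) : ∀ (S : Finset (Fin n)) (y : Y),
    ∃ P : Piv n Y, ∀ f, f S = y → P.result f S = T.result f ∧
      P.moves f S ≤ n * (T.count f + 1) := by
  have hn : ∀ S S' : Finset (Fin n), (symmDiff S S').card ≤ n := fun S S' => by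
    simpa using card_le_univ (symmDiff S S')
  induction T with
  | stop x =>
    intro S y
    rcases Nat.eq_zero_or_pos (symmDiff S x).card with h | h
    · have hx : S = x := symmDiff_eq_bot.1 (card_eq_zero.1 h)
      exact ⟨.stop, fun f _ => ⟨hx, by simp [moves]⟩⟩
    · obtain ⟨P, hP⟩ := path (fun _ => Piv.stop (n := n) (Y := Y)) x
        ((symmDiff S x).card - 1) S (by omega)
      refine ⟨P, fun f _ => ?_⟩
      obtain ⟨h1, h2⟩ := hP f
      refine ⟨h1, ?_⟩
      have h3 := hn S x
      simp only [moves] at h2
      simp only [Strat.count, zero_add, mul_one]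
      omega
  | ask x next ih =>
    intro S y
    by_cases hx : S = x
    · subst hx
      obtain ⟨P, hP⟩ := ih y S y
      refine ⟨P, fun f hf => ?_⟩
      obtain ⟨h1, h2⟩ := hP f hf
      subst hf
      refine ⟨h1, h2.trans ?_⟩
      exact Nat.mul_le_mul_left _ (by simp only [Strat.count]; omega)
    · choose Q hQ using fun y' => ih y' x y'
      have hpos : 0 < (symmDiff S x).card := by
        rw [card_pos, nonempty_iff_ne_empty]
        exact fun h => hx (symmDiff_eq_bot.1 h)
      obtain ⟨P, hP⟩ := path Q x ((symmDiff S x).card - 1) S (by omega)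
      refine ⟨P, fun f _ => ?_⟩
      obtain ⟨h1, h2⟩ := hP f
      obtain ⟨h3, h4⟩ := hQ (f x) f rfl
      refine ⟨h1.trans h3, ?_⟩
      have h5 := hn S x
      have h6 : n * ((Strat.ask x next).count f + 1) = n * ((next (f x)).count f + 1) + n := by
        simp only [Strat.count]; ring
      omega

end Piv

end Pool.Agent.V8H45.US
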