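import Mathlib
import Pool.Agent.V8H45.US.Strat

/-!
# The outmap of a unique sink orientation is bijective (Szabó and Welzl)
-/

set_option autoImplicit false

open Finset

namespace Pool.Agent.V8H45.US

variable {n : ℕ}

/-- `s` is the outmap of a unique sink orientation of the cube (the vertices are the subsets `S` of
`Fin n`, and `s S` is the set of the coordinates of the outgoing edges at `S`): every face
`{S | I ⊆ S ⊆ J}` has exactly one sink. -/
def UniqueSink (s : Finset (Fin n) → Finset (Fin n)) : Prop :=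
  ∀ I J, I ⊆ J → ∃! S, (I ⊆ S ∧ S ⊆ J) ∧ Disjoint (s S) (J \ I)

theorem UniqueSink.flip {s : Finset (Fin n) → Finset (Fin n)} (h : UniqueSink s) (i : Fin n) :
    UniqueSink fun S => symmDiff (s S) {i} := by
  intro I J hIJ
  by_cases hi : i ∈ J \ I
  · rw [mem_sdiff] at hi
    have h1 := h (insert i I) J (insert_subset hi.1 hIJ)
    have h0 := h I (J.erase i) (fun j hj => mem_erase.2 ⟨fun e => hi.2 (e ▸ hj), hIJ hj⟩)
    have hs := h I J hIJ
    obtain ⟨S1, ⟨⟨h1a, h1b⟩, h1c⟩, h1d⟩ := h1
    obtain ⟨S0, ⟨⟨h0a, h0b⟩, h0c⟩, h0d⟩ := h0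
    obtain ⟨S, ⟨⟨hsa, hsb⟩, hsc⟩, hsd⟩ := hs
    have hi1 : i ∈ S1 := h1a (mem_insert_self _ _)
    have hi0 : i ∉ S0 := fun e => (mem_erase.1 (h0b e)).1 rfl
    have e1 : ∀ T, Disjoint T (J \ insert i I) ↔ ∀ j ∈ T, j ∈ J → j ∉ I → j = i := by
      intro T
      rw [disjoint_left]
      constructor
      · intro H j hj hjJ hjI
        by_contra hne
        exact H hj (mem_sdiff.2 ⟨hjJ, fun e => (mem_insert.1 e).elim hne hjI⟩)
      · intro H j hj hj'
        rw [mem_sdiff, mem_insert, not_or] at hj'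
        exact hj'.2.1 (H j hj hj'.1 hj'.2.2)
    have e0 : ∀ T, Disjoint T ((J.erase i) \ I) ↔ ∀ j ∈ T, j ∈ J → j ∉ I → j = i := by
      intro T
      rw [disjoint_left]
      constructor
      · intro H j hj hjJ hjI
        by_contra hne
        exact H hj (mem_sdiff.2 ⟨mem_erase.2 ⟨hne, hjJ⟩, hjI⟩)
      · intro H j hj hj'
        rw [mem_sdiff, mem_erase] at hj'
        exact hj'.1.1 (H j hj hj'.1.2 hj'.2)
    have es : ∀ T, Disjoint T (J \ I) ↔ (∀ j ∈ T, j ∈ J → j ∉ I → j = i) ∧ i ∉ T := by
      intro T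
      rw [disjoint_left]
      constructor
      · intro H
        refine ⟨fun j hj hjJ hjI => absurd (mem_sdiff.2 ⟨hjJ, hjI⟩) (H hj), fun e =>
          H e (mem_sdiff.2 hi)⟩
      · rintro ⟨H, H'⟩ j hj hj'
        rw [mem_sdiff] at hj'
        have := H j hj hj'.1 hj'.2
        exact H' (this ▸ hj)
    have em : ∀ T : Finset (Fin n), (∀ j ∈ symmDiff T {i}, j ∈ J → j ∉ I → j = i) ↔
        ∀ j ∈ T, j ∈ J → j ∉ I → j = i := by
      intro T
      constructor
      · intro H j hj hjJ hjI
        by_contra hne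
        exact hne (H j (by rw [mem_symmDiff, mem_singleton]; exact Or.inl ⟨hj, hne⟩) hjJ hjI)
      · intro H j hj hjJ hjI
        rw [mem_symmDiff, mem_singleton] at hj
        rcases hj with hj | hj
        · exact H j hj.1 hjJ hjI
        · exact hj.1
    have ei : ∀ T : Finset (Fin n), i ∉ symmDiff T {i} ↔ i ∈ T := by
      intro T
      rw [mem_symmDiff, mem_singleton]
      tauto
    rw [e1] at h1c
    rw [e0] at h0c
    rw [es] at hsc
    simp only [e1] at h1d
    simp only [e0] at h0d
    simp only [es] at hsd ⊢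
    simp only [em, ei]
    by_cases hiS : i ∈ S
    · -- the sink is `S1`
      have hSS1 : S = S1 := h1d S ⟨⟨insert_subset hiS hsa, hsb⟩, hsc.1⟩
      subst hSS1
      have h3 : i ∈ s S0 := by
        by_contra hcon
        have := hsd S0 ⟨⟨h0a, h0b.trans (erase_subset _ _)⟩, h0c, hcon⟩
        exact hi0 (this ▸ hiS)
      refine ⟨S0, ⟨⟨h0a, h0b.trans (erase_subset _ _)⟩, h0c, h3⟩, ?_⟩
      rintro T ⟨⟨hTa, hTb⟩, hTc, hTd⟩
      by_cases hiT : i ∈ T
      · have := h1d T ⟨⟨insert_subset hiT hTa, hTb⟩, hTc⟩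
        subst this
        exact absurd hTd hsc.2
      · exact h0d T ⟨⟨hTa, fun j hj => mem_erase.2 ⟨fun e => hiT (e ▸ hj), hTb hj⟩⟩, hTc⟩
    · have hSS0 : S = S0 :=
        h0d S ⟨⟨hsa, fun j hj => mem_erase.2 ⟨fun e => hiS (e ▸ hj), hsb hj⟩⟩, hsc.1⟩
      subst hSS0
      have h3 : i ∈ s S1 := by
        by_contra hcon
        have := hsd S1 ⟨⟨(subset_insert _ _).trans h1a, h1b⟩, h1c, hcon⟩
        exact hiS (this ▸ hi1)
      refine ⟨S1, ⟨⟨(subset_insert _ _).trans h1a, h1b⟩, h1c, h3⟩, ?_⟩
      rintro T ⟨⟨hTa, hTb⟩, hTc, hTd⟩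
      by_cases hiT : i ∈ T
      · exact h1d T ⟨⟨insert_subset hiT hTa, hTb⟩, hTc⟩
      · have := h0d T ⟨⟨hTa, fun j hj => mem_erase.2 ⟨fun e => hiT (e ▸ hj), hTb hj⟩⟩, hTc⟩
        subst this
        exact absurd hTd hsc.2
  · have e : ∀ T : Finset (Fin n), Disjoint (symmDiff T {i}) (J \ I) ↔ Disjoint T (J \ I) := by
      intro T
      rw [disjoint_left, disjoint_left]
      constructor
      · intro H j hj hj'
        have hji : j ≠ i := fun e => hi (e ▸ hj')
        exact H (by rw [mem_symmDiff, mem_singleton]; exact Or.inl ⟨hj, hji⟩) hj'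
      · intro H j hj hj'
        have hji : j ≠ i := fun e => hi (e ▸ hj')
        rw [mem_symmDiff, mem_singleton] at hj
        rcases hj with hj | hj
        · exact H hj.1 hj'
        · exact hji hj.1
    simp only [e]
    exact h I J hIJ

theorem UniqueSink.flips {s : Finset (Fin n) → Finset (Fin n)} (h : UniqueSink s)
    (L : Finset (Fin n)) : UniqueSink fun S => symmDiff (s S) L := by
  induction L using Finset.induction_on with
  | empty =>
    have : (fun S => symmDiff (s S) ∅) = s := by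
      funext S
      exact symmDiff_bot _
    rw [this]
    exact h
  | insert i L hi ih =>
    have h1 := ih.flip i
    have h2 : (fun S => symmDiff (symmDiff (s S) L) {i}) = fun S => symmDiff (s S) (insert i L) := by
      funext S
      rw [symmDiff_assoc]
      congr 1
      ext j
      rw [mem_symmDiff, mem_singleton, mem_insert]
      by_cases hj : j = i
      · subst hj; tauto
      · tauto
    rw [← h2]
    exact h1

/-- Szabó and Welzl: the outmap is bijective. -/
theorem UniqueSink.bijective {s : Finset (Fin n) → Finset (Fin n)} (h : UniqueSink s) :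
    Function.Bijective s := by
  rw [Function.bijective_iff_existsUnique]
  intro L
  obtain ⟨S, ⟨-, hS⟩, hS'⟩ := (h.flips L) ∅ univ (empty_subset _)
  have key : ∀ T : Finset (Fin n), Disjoint (symmDiff (s T) L) (univ \ ∅) ↔ s T = L := by
    intro T
    rw [sdiff_empty]
    constructor
    · intro H
      have : symmDiff (s T) L = ⊥ := by
        have h2 := disjoint_iff.1 H
        rw [Finset.inf_eq_inter, inter_univ] at h2
        exact h2
      exact symmDiff_eq_bot.1 this
    · rintro rfl
      simp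
  refine ⟨S, (key S).1 hS, fun T hT => ?_⟩
  exact hS' T ⟨⟨empty_subset _, subset_univ _⟩, (key T).2 hT⟩

/-- The condition of Szabó and Welzl is sufficient. -/
theorem uniqueSink_of_pair {s : Finset (Fin n) → Finset (Fin n)}
    (h : ∀ S T, S ≠ T → ∃ i ∈ symmDiff S T, (i ∈ s S ↔ i ∉ s T)) : UniqueSink s := by
  intro I J hIJ
  -- the vertices of the face correspond to the subsets of `J \ I`
  have key : ∀ R ∈ (J \ I).powerset, ∃ R' ∈ (J \ I).powerset, s (I ∪ R') ∩ (J \ I) = R := by
    have hmaps : Set.MapsTo (fun R' => s (I ∪ R') ∩ (J \ I)) ((J \ I).powerset : Set _)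
        ((J \ I).powerset : Set _) := by
      intro R' _
      simp only [coe_powerset, Set.mem_preimage, Set.mem_powerset_iff, coe_subset]
      exact inter_subset_right
    have hinj : Set.InjOn (fun R' => s (I ∪ R') ∩ (J \ I)) ((J \ I).powerset : Set _) := by
      intro R hR R' hR' heq
      rw [mem_coe, mem_powerset] at hR hR'
      by_contra hne
      have hne' : I ∪ R ≠ I ∪ R' := by
        intro e
        apply hne
        ext j
        have h1 := congrArg (fun U => j ∈ U) e
        simp only [mem_union, eq_iff_iff] at h1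
        constructor
        · intro hj
          exact (h1.1 (Or.inr hj)).resolve_left (mem_sdiff.1 (hR hj)).2
        · intro hj
          exact (h1.2 (Or.inr hj)).resolve_left (mem_sdiff.1 (hR' hj)).2
      obtain ⟨i, hi, hi'⟩ := h _ _ hne'
      have hiIJ : i ∈ J \ I := by
        rw [mem_symmDiff, mem_union, mem_union, not_or, not_or] at hi
        rcases hi with ⟨h1 | h1, h2⟩ | ⟨h1 | h1, h2⟩
        · exact absurd h1 h2.1
        · exact hR h1
        · exact absurd h1 h2.1
        · exact hR' h1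
      have h2 := congrArg (fun U => i ∈ U) heq
      simp only [mem_inter, hiIJ, and_true, eq_iff_iff] at h2
      tauto
    have hsurj := Finset.surj_on_of_inj_on_of_card_le
      (s := (J \ I).powerset) (t := (J \ I).powerset)
      (fun R' _ => s (I ∪ R') ∩ (J \ I)) (fun R' hR' => by simp) (fun R R' hR hR' heq => hinj (mem_coe.2 hR) (mem_coe.2 hR') heq) le_rfl
    intro R hR
    obtain ⟨R', hR', h'⟩ := hsurj R hR
    exact ⟨R', hR', h'.symm⟩
  obtain ⟨R', hR', hR''⟩ := key ∅ (empty_mem_powerset _)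
  rw [mem_powerset] at hR'
  refine ⟨I ∪ R', ⟨⟨subset_union_left, union_subset hIJ (hR'.trans sdiff_subset)⟩, ?_⟩, ?_⟩
  · rw [disjoint_iff_inter_eq_empty]
    exact hR''
  · rintro T ⟨⟨hT1, hT2⟩, hT3⟩
    by_contra hne
    obtain ⟨i, hi, hi'⟩ := h _ _ hne
    have hiIJ : i ∈ J \ I := by
      rw [mem_symmDiff, mem_union, not_or] at hi
      rcases hi with ⟨h1, h2⟩ | ⟨h1 | h1, h2⟩
      · exact mem_sdiff.2 ⟨hT2 h1, h2.1⟩
      · exact absurd (hT1 h1) h2
      · exact hR' h1
    have h1 : i ∉ s T := fun e => disjoint_left.1 hT3 e hiIJ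
    have h2 : i ∉ s (I ∪ R') := by
      intro e
      have : i ∈ s (I ∪ R') ∩ (J \ I) := mem_inter.2 ⟨e, hiIJ⟩
      rw [hR''] at this
      exact absurd this (notMem_empty i)
    exact h1 (hi'.2 h2)

end Pool.Agent.V8H45.US
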