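import Mathlib
import Pool.Agent.V8H45.US.Uso

/-!
# Linear complementarity problems with P-matrices
-/

set_option autoImplicit false

open Finset Matrix

namespace Pool.Agent.V8H45.US

variable {n : ℕ}

/-- A P-matrix: all principal minors are positive. -/
def IsP (M : Matrix (Fin n) (Fin n) ℝ) : Prop :=
  ∀ S : Finset (Fin n), 0 < (M.submatrix (fun i : S => (i : Fin n)) (fun i : S => (i : Fin n))).det

/-- the determinant does not depend on the instances -/
theorem det_inst {α R : Type*} [CommRing R] (A : Matrix α α R) (d₁ d₂ : DecidableEq α)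
    (f₁ f₂ : Fintype α) : @Matrix.det α d₁ f₁ R _ A = @Matrix.det α d₂ f₂ R _ A := by
  cases Subsingleton.elim d₁ d₂
  cases Subsingleton.elim f₁ f₂
  rfl

section ring

variable {K : Type*} [CommRing K]

/-- the rows of `M` in `S`, unit vectors outside -/
def cut (M : Matrix (Fin n) (Fin n) K) (S : Finset (Fin n)) : Matrix (Fin n) (Fin n) K :=
  of fun i j => if i ∈ S then M i j else if i = j then 1 else 0

/-- the right-hand side -/
def rhs (q : Fin n → K) (S : Finset (Fin n)) : Fin n → K := fun i => if i ∈ S then -q i else 0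

theorem det_cut (M : Matrix (Fin n) (Fin n) K) (S : Finset (Fin n)) :
    (cut M S).det = (M.submatrix (fun i : S => (i : Fin n)) (fun i : S => (i : Fin n))).det := by
  have h := twoBlockTriangular_det (cut M S) (fun i => i ∈ S) (by
    intro i hi j hj
    have hij : i ≠ j := fun e => hi (e ▸ hj)
    simp [cut, hi, hij])
  have h2 : (toSquareBlockProp (cut M S) fun i => ¬ i ∈ S) = 1 := by
    ext i j
    have hi := i.2
    simp only [toSquareBlockProp_def, of_apply, cut, hi, if_false, one_apply]
    by_cases hij : i = j
    · subst hij; simp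
    · have : (i : Fin n) ≠ (j : Fin n) := fun e => hij (Subtype.ext e)
      simp [hij, this]
  have h3 : (toSquareBlockProp (cut M S) fun i => i ∈ S) =
      (M.submatrix (fun i : S => (i : Fin n)) (fun i : S => (i : Fin n))) := by
    ext i j
    have hi := i.2
    simp only [toSquareBlockProp_def, of_apply, cut, hi, if_true, submatrix_apply]
  have h4 : (toSquareBlockProp (cut M S) fun i => ¬ i ∈ S).det = 1 := by
    rw [h2]
    exact det_one
  calc (cut M S).det = _ := h
    _ = (toSquareBlockProp (cut M S) fun i => i ∈ S).det * 1 := by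
      congr 1
      exact det_inst _ _ _ _ _
    _ = (toSquareBlockProp (cut M S) fun i => i ∈ S).det := mul_one _
    _ = _ := by rw [← h3]

end ring

theorem IsP.cut_pos {M : Matrix (Fin n) (Fin n) ℝ} (hM : IsP M) (S : Finset (Fin n)) :
    0 < (cut M S).det := by
  rw [det_cut]
  exact hM S

/-- `cut` with `d i` added to the diagonal entries in `U` -/
def cutd (M : Matrix (Fin n) (Fin n) ℝ) (d : Fin n → ℝ) (U S : Finset (Fin n)) :
    Matrix (Fin n) (Fin n) ℝ :=
  of fun i j => if i ∈ S then M i j + (if i ∈ U ∧ i = j then d i else 0) else if i = j then 1 else 0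

theorem IsP.cutd_pos {M : Matrix (Fin n) (Fin n) ℝ} (hM : IsP M) (d : Fin n → ℝ)
    (hd : ∀ i, 0 ≤ d i) (U : Finset (Fin n)) : ∀ S, 0 < (cutd M d U S).det := by
  induction U using Finset.induction_on with
  | empty =>
    intro S
    have : cutd M d ∅ S = cut M S := by
      ext i j
      simp [cutd, cut]
    rw [this]
    exact hM.cut_pos S
  | insert i₀ U hi₀ ih =>
    intro S
    by_cases hS : i₀ ∈ S
    · have h1 : cutd M d (insert i₀ U) S =
          updateRow (cutd M d U S) i₀ (cutd M d U S i₀ + d i₀ • Pi.single i₀ 1) := by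
        ext i j
        by_cases hi : i = i₀
        · subst hi
          rw [updateRow_self]
          simp only [cutd, of_apply, Pi.add_apply, Pi.smul_apply, smul_eq_mul, hS, if_true,
            mem_insert, true_or, true_and, hi₀, false_and, if_false, add_zero]
          by_cases hj : i = j
          · subst hj; simp
          · simp [hj, Ne.symm hj]
        · rw [updateRow_ne hi]
          simp [cutd, hi]
      have h2 : updateRow (cutd M d U S) i₀ (Pi.single i₀ 1) = cutd M d U (S.erase i₀) := by
        ext i j
        by_cases hi : i = i₀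
        · subst hi
          rw [updateRow_self]
          simp only [cutd, of_apply, mem_erase, ne_eq, not_true_eq_false, false_and, if_false]
          by_cases hj : i = j
          · subst hj; simp
          · simp [hj, Ne.symm hj]
        · rw [updateRow_ne hi]
          simp [cutd, hi]
      rw [h1, det_updateRow_add, det_updateRow_smul, updateRow_eq_self, h2]
      have h3 := ih S
      have h4 := ih (S.erase i₀)
      have h5 := mul_nonneg (hd i₀) h4.le
      linarith
    · have h1 : cutd M d (insert i₀ U) S = cutd M d U S := by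
        ext i j
        simp only [cutd, of_apply, mem_insert]
        by_cases hi : i ∈ S
        · have : i ≠ i₀ := fun e => hS (e ▸ hi)
          simp [this]
        · simp [hi]
      rw [h1]
      exact ih S

/-- A P-matrix reverses the signs of no nonzero vector. -/
theorem IsP.sign {M : Matrix (Fin n) (Fin n) ℝ} (hM : IsP M) {x : Fin n → ℝ} (hx : x ≠ 0) :
    ∃ i, 0 < x i * (M *ᵥ x) i := by
  by_contra hcon
  push Not at hcon
  set d : Fin n → ℝ := fun i => if x i = 0 then 0 else -(M *ᵥ x) i / x i with hd
  have hd0 : ∀ i, 0 ≤ d i := by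
    intro i
    simp only [hd]
    split_ifs with h
    · exact le_rfl
    · have h1 := hcon i
      have h2 : -(M *ᵥ x) i / x i = -(x i * (M *ᵥ x) i) / (x i) ^ 2 := by
        field_simp
      rw [h2]
      exact div_nonneg (by linarith) (sq_nonneg _)
  have hpos := hM.cutd_pos d hd0 univ (univ.filter fun i => x i ≠ 0)
  have hker : (cutd M d univ (univ.filter fun i => x i ≠ 0)) *ᵥ x = 0 := by
    funext i
    simp only [mulVec, dotProduct, cutd, of_apply, mem_filter, mem_univ, true_and, Pi.zero_apply]
    by_cases hi : x i = 0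
    · simp [hi]
    · simp only [ne_eq, hi, not_false_eq_true, if_true, add_mul, sum_add_distrib, ite_mul,
        zero_mul, sum_ite_eq, mem_univ]
      have h1 : ∑ j, M i j * x j = (M *ᵥ x) i := rfl
      rw [h1]
      simp only [hd, hi, if_false]
      field_simp
      ring
  have hdet : (cutd M d univ (univ.filter fun i => x i ≠ 0)).det = 0 := by
    rw [← exists_mulVec_eq_zero_iff]
    exact ⟨x, hx, hker⟩
  linarith

/-- The basic solution of the linear complementarity problem which belongs to `S`: the vector `z`
with `z i = 0` outside `S` and `(M z + q) i = 0` in `S`. -/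
noncomputable def basic (M : Matrix (Fin n) (Fin n) ℝ) (q : Fin n → ℝ) (S : Finset (Fin n)) :
    Fin n → ℝ := (cut M S)⁻¹ *ᵥ rhs q S

theorem basic_spec {M : Matrix (Fin n) (Fin n) ℝ} (hM : IsP M) (q : Fin n → ℝ)
    (S : Finset (Fin n)) : (∀ i ∉ S, basic M q S i = 0) ∧
      ∀ i ∈ S, (M *ᵥ basic M q S) i + q i = 0 := by
  have h0 : IsUnit (cut M S).det := (hM.cut_pos S).ne'.isUnit
  have h1 : (cut M S) *ᵥ basic M q S = rhs q S := by
    unfold basic
    rw [mulVec_mulVec, mul_nonsing_inv _ h0, one_mulVec]
  constructor
  · intro i hi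
    have h2 := congrFun h1 i
    simpa [mulVec, dotProduct, cut, rhs, hi] using h2
  · intro i hi
    have h2 := congrFun h1 i
    simp only [mulVec, dotProduct, cut, rhs, hi, of_apply, if_true] at h2
    simp only [mulVec, dotProduct, h2]
    ring

theorem basic_unique {M : Matrix (Fin n) (Fin n) ℝ} (hM : IsP M) (q : Fin n → ℝ)
    (S : Finset (Fin n)) (z : Fin n → ℝ) (h0 : ∀ i ∉ S, z i = 0)
    (h1 : ∀ i ∈ S, (M *ᵥ z) i + q i = 0) : basic M q S = z := by
  have h2 : IsUnit (cut M S).det := (hM.cut_pos S).ne'.isUnit
  have h3 : (cut M S) *ᵥ z = rhs q S := by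
    funext i
    by_cases hi : i ∈ S
    · have := h1 i hi
      simp only [mulVec, dotProduct, cut, rhs, hi, of_apply, if_true] at this ⊢
      linarith
    · simp [mulVec, dotProduct, cut, rhs, hi, h0 i hi]
  unfold basic
  rw [← h3, mulVec_mulVec, nonsing_inv_mul _ h2, one_mulVec]

open Classical in
/-- The outmap of the linear complementarity problem `w = M z + q`, `w, z ≥ 0`, `w z = 0`: for the
basic solution `(z, w)` of `S`, the set of the `i ∈ S` with `z i ≤ 0` and the `i ∉ S` with
`w i < 0`. -/
noncomputable def outmap (M : Matrix (Fin n) (Fin n) ℝ) (q : Fin n → ℝ) (S : Finset (Fin n)) :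
    Finset (Fin n) :=
  univ.filter fun i => if i ∈ S then basic M q S i ≤ 0 else (M *ᵥ basic M q S) i + q i < 0

theorem mem_outmap (M : Matrix (Fin n) (Fin n) ℝ) (q : Fin n → ℝ) (S : Finset (Fin n))
    (i : Fin n) : i ∈ outmap M q S ↔
      if i ∈ S then basic M q S i ≤ 0 else (M *ᵥ basic M q S) i + q i < 0 := by
  simp [outmap]

theorem outmap_pair {M : Matrix (Fin n) (Fin n) ℝ} (hM : IsP M) (q : Fin n → ℝ)
    (S T : Finset (Fin n)) (hST : S ≠ T) :
    ∃ i ∈ symmDiff S T, (i ∈ outmap M q S ↔ i ∉ outmap M q T) := by
  obtain ⟨hS0, hS1⟩ := basic_spec hM q S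
  obtain ⟨hT0, hT1⟩ := basic_spec hM q T
  by_cases hz : basic M q S = basic M q T
  · -- the basic solutions agree
    obtain ⟨i, hi⟩ : (symmDiff S T).Nonempty := by
      rw [nonempty_iff_ne_empty]
      exact fun e => hST (symmDiff_eq_bot.1 e)
    refine ⟨i, hi, ?_⟩
    rw [mem_symmDiff] at hi
    rw [mem_outmap, mem_outmap]
    rcases hi with ⟨h1, h2⟩ | ⟨h1, h2⟩
    · have h3 := hT0 i h2
      have h4 := hS1 i h1
      rw [← hz] at h3
      rw [← hz]
      simp [h1, h2, h3, h4]
    · have h3 := hS0 i h2
      have h4 := hT1 i h1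
      rw [hz] at h3
      rw [hz]
      simp [h1, h2, h3, h4]
  · obtain ⟨i, hi⟩ := hM.sign (sub_ne_zero.2 hz)
    have h1 : (M *ᵥ (basic M q S - basic M q T)) i =
        ((M *ᵥ basic M q S) i + q i) - ((M *ᵥ basic M q T) i + q i) := by
      rw [mulVec_sub]
      simp
    rw [h1, Pi.sub_apply] at hi
    refine ⟨i, ?_, ?_⟩
    · rw [mem_symmDiff]
      by_contra hcon
      by_cases h2 : i ∈ S
      · by_cases h3 : i ∈ T
        · rw [hS1 i h2, hT1 i h3] at hi
          simp at hi
        · exact hcon (Or.inl ⟨h2, h3⟩)
      · by_cases h3 : i ∈ T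
        · exact hcon (Or.inr ⟨h3, h2⟩)
        · rw [hS0 i h2, hT0 i h3] at hi
          simp at hi
    · rw [mem_outmap, mem_outmap]
      by_cases h2 : i ∈ S
      · by_cases h3 : i ∈ T
        · rw [hS1 i h2, hT1 i h3] at hi
          simp at hi
        · rw [hS1 i h2, hT0 i h3] at hi
          simp only [h2, h3, if_true, if_false]
          have h4 : 0 < basic M q S i * -((M *ᵥ basic M q T) i + q i) := by
            have := hi
            ring_nf at this ⊢
            linarith
          constructor
          · intro h5 h6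
            nlinarith
          · intro h5
            by_contra h6
            rw [not_le] at h6
            rw [not_lt] at h5
            nlinarith
      · by_cases h3 : i ∈ T
        · rw [hS0 i h2, hT1 i h3] at hi
          simp only [h2, h3, if_true, if_false]
          have h4 : 0 < -(basic M q T i * ((M *ᵥ basic M q S) i + q i)) := by
            have := hi
            ring_nf at this ⊢
            linarith
          constructor
          · intro h5 h6
            nlinarith
          · intro h5
            by_contra h6
            rw [not_lt] at h6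
            rw [not_le] at h5
            nlinarith
        · rw [hS0 i h2, hT0 i h3] at hi
          simp at hi

theorem outmap_uniqueSink {M : Matrix (Fin n) (Fin n) ℝ} (hM : IsP M) (q : Fin n → ℝ) :
    UniqueSink (outmap M q) := uniqueSink_of_pair fun S T h => outmap_pair hM q S T h

/-- The sink gives the solution. -/
theorem solution_of_sink {M : Matrix (Fin n) (Fin n) ℝ} (hM : IsP M) (q : Fin n → ℝ)
    (S : Finset (Fin n)) (hS : outmap M q S = ∅) :
    (∀ i, 0 ≤ basic M q S i) ∧ (∀ i, 0 ≤ (M *ᵥ basic M q S) i + q i) ∧
      ∀ i, basic M q S i = 0 ∨ (M *ᵥ basic M q S) i + q i = 0 := by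
  obtain ⟨hS0, hS1⟩ := basic_spec hM q S
  have h : ∀ i, ¬ (if i ∈ S then basic M q S i ≤ 0 else (M *ᵥ basic M q S) i + q i < 0) := by
    intro i hi
    have := (mem_outmap M q S i).2 hi
    rw [hS] at this
    exact absurd this (notMem_empty i)
  refine ⟨fun i => ?_, fun i => ?_, fun i => ?_⟩
  · by_cases hi : i ∈ S
    · have := h i
      simp only [hi, if_true, not_le] at this
      exact this.le
    · rw [hS0 i hi]
  · by_cases hi : i ∈ S
    · rw [hS1 i hi]
    · have := h i
      simp only [hi, if_false, not_lt] at this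
      exact this
  · by_cases hi : i ∈ S
    · exact Or.inr (hS1 i hi)
    · exact Or.inl (hS0 i hi)

end Pool.Agent.V8H45.US
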