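import Mathlib
import Pool.Agent.V8H45.US.Lcp
import Pool.Agent.Helper448.Warren

/-!
# The number of outmaps of parametric families
-/

set_option autoImplicit false

open Finset Matrix

namespace Pool.Agent.V8H45.US

variable {n : ℕ} {σ : Type} [Fintype σ] [DecidableEq σ]

/-- The values of polynomials. -/
noncomputable def evM (M : Matrix (Fin n) (Fin n) (MvPolynomial σ ℝ)) (x : σ → ℝ) :
    Matrix (Fin n) (Fin n) ℝ := fun i j => MvPolynomial.eval x (M i j)

/-- The values of polynomials. -/
noncomputable def evV (q : Fin n → MvPolynomial σ ℝ) (x : σ → ℝ) : Fin n → ℝ :=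
  fun i => MvPolynomial.eval x (q i)

/-- the numerators -/
noncomputable def num {K : Type*} [CommRing K] (M : Matrix (Fin n) (Fin n) K) (q : Fin n → K)
    (S : Finset (Fin n)) (i : Fin n) : K :=
  if i ∈ S then cramer (cut M S) (rhs q S) i
  else ∑ j, M i j * cramer (cut M S) (rhs q S) j + q i * (cut M S).det

theorem basic_cramer {M : Matrix (Fin n) (Fin n) ℝ} (hM : IsP M) (q : Fin n → ℝ)
    (S : Finset (Fin n)) (i : Fin n) :
    cramer (cut M S) (rhs q S) i = (cut M S).det * basic M q S i := by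
  unfold basic
  have h0 : (cut M S).det ≠ 0 := (hM.cut_pos S).ne'
  rw [nonsing_inv_apply _ h0.isUnit, smul_mulVec, ← cramer_eq_adjugate_mulVec]
  simp only [Pi.smul_apply]
  rw [smul_eq_mul, ← mul_assoc]
  have : (cut M S).det * ((h0.isUnit.unit⁻¹ : ℝˣ) : ℝ) = 1 := by
    have := h0.isUnit.mul_val_inv
    exact this
  rw [this, one_mul]

theorem mem_outmap_num {M : Matrix (Fin n) (Fin n) ℝ} (hM : IsP M) (q : Fin n → ℝ)
    (S : Finset (Fin n)) (i : Fin n) : i ∈ outmap M q S ↔
      if i ∈ S then SignType.sign (num M q S i) ≠ 1 else SignType.sign (num M q S i) = -1 := by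
  rw [mem_outmap]
  have h0 := hM.cut_pos S
  by_cases hi : i ∈ S
  · simp only [hi, if_true, num, basic_cramer hM]
    rw [Ne, sign_eq_one_iff, not_lt]
    constructor
    · intro h
      exact mul_nonpos_of_nonneg_of_nonpos h0.le h
    · intro h
      by_contra hcon
      rw [not_le] at hcon
      have := mul_pos h0 hcon
      linarith
  · simp only [hi, if_false, num, basic_cramer hM]
    have h1 : ∑ j, M i j * ((cut M S).det * basic M q S j) + q i * (cut M S).det =
        (cut M S).det * ((M *ᵥ basic M q S) i + q i) := by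
      simp only [mulVec, dotProduct, mul_add, mul_sum]
      congr 1
      · exact sum_congr rfl fun j _ => by ring
      · ring
    rw [h1, sign_eq_neg_one_iff]
    constructor
    · intro h
      exact mul_neg_of_pos_of_neg h0 h
    · intro h
      by_contra hcon
      rw [not_lt] at hcon
      have := mul_nonneg h0.le hcon
      linarith

omit [Fintype σ] [DecidableEq σ] in
theorem eval_cut (M : Matrix (Fin n) (Fin n) (MvPolynomial σ ℝ)) (S : Finset (Fin n))
    (x : σ → ℝ) : (MvPolynomial.eval x).mapMatrix (cut M S) = cut (evM M x) S := by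
  ext i j
  simp only [RingHom.mapMatrix_apply, map_apply, cut, of_apply, evM]
  split_ifs <;> simp

omit [Fintype σ] [DecidableEq σ] in
theorem eval_num (M : Matrix (Fin n) (Fin n) (MvPolynomial σ ℝ)) (q : Fin n → MvPolynomial σ ℝ)
    (S : Finset (Fin n)) (i : Fin n) (x : σ → ℝ) :
    MvPolynomial.eval x (num M q S i) = num (evM M x) (evV q x) S i := by
  have h1 : ∀ j, MvPolynomial.eval x (cramer (cut M S) (rhs q S) j) =
      cramer (cut (evM M x) S) (rhs (evV q x) S) j := by
    intro j
    rw [cramer_apply, cramer_apply, RingHom.map_det]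
    congr 1
    ext a b
    simp only [RingHom.mapMatrix_apply, map_apply, updateCol_apply, rhs, cut, of_apply, evM, evV]
    split_ifs <;> simp
  have h3 : MvPolynomial.eval x (cut M S).det = (cut (evM M x) S).det := by
    rw [RingHom.map_det, eval_cut]
  unfold num
  split_ifs with h
  · exact h1 i
  · rw [map_add, map_sum, map_mul, h3]
    congr 1
    exact sum_congr rfl fun j _ => by rw [map_mul, h1]; rfl

/-! ### Degrees -/

omit [Fintype σ] [DecidableEq σ] in
theorem deg_det {k : ℕ} (A : Matrix (Fin k) (Fin k) (MvPolynomial σ ℝ)) (d : ℕ)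
    (h : ∀ i j, (A i j).totalDegree ≤ d) : A.det.totalDegree ≤ k * d := by
  rw [det_apply]
  apply (MvPolynomial.totalDegree_finsetSum _ _).trans
  apply Finset.sup_le
  intro τ _
  refine (MvPolynomial.totalDegree_smul_le _ _).trans ?_
  refine (MvPolynomial.totalDegree_finsetProd _ _).trans ?_
  refine (Finset.sum_le_sum fun i _ => h _ _).trans ?_
  simp

omit [Fintype σ] [DecidableEq σ] in
theorem deg_num (M : Matrix (Fin n) (Fin n) (MvPolynomial σ ℝ)) (q : Fin n → MvPolynomial σ ℝ)
    (d : ℕ) (hM : ∀ i j, (M i j).totalDegree ≤ d) (hq : ∀ i, (q i).totalDegree ≤ d)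
    (S : Finset (Fin n)) (i : Fin n) : (num M q S i).totalDegree ≤ (n + 1) * d := by
  have hcut : ∀ i j, (cut M S i j).totalDegree ≤ d := by
    intro i j
    simp only [cut, of_apply]
    split_ifs
    · exact hM i j
    · simp
    · simp
  have hrhs : ∀ i, (rhs q S i).totalDegree ≤ d := by
    intro i
    simp only [rhs]
    split_ifs
    · rw [MvPolynomial.totalDegree_neg]; exact hq i
    · simp
  have h1 : ∀ j, (cramer (cut M S) (rhs q S) j).totalDegree ≤ n * d := by
    intro j
    rw [cramer_apply]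
    apply deg_det
    intro a b
    rw [updateCol_apply]
    split_ifs
    · exact hrhs a
    · exact hcut a b
  have h2 : (cut M S).det.totalDegree ≤ n * d := deg_det _ _ hcut
  have h3 : (n + 1) * d = n * d + d := by ring
  unfold num
  split_ifs with h
  · exact (h1 i).trans (by omega)
  · refine (MvPolynomial.totalDegree_add _ _).trans (max_le ?_ ?_)
    · refine (MvPolynomial.totalDegree_finsetSum _ _).trans (Finset.sup_le fun j _ => ?_)
      refine (MvPolynomial.totalDegree_mul _ _).trans ?_
      have := h1 j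
      have := hM i j
      omega
    · refine (MvPolynomial.totalDegree_mul _ _).trans ?_
      have := hq i
      omega

/-! ### Counting -/

/-- the number of evaluations for `N` parameters and degree `d` -/
def bound (n N d : ℕ) : ℕ := N * (n + 2 * Nat.clog 2 (n + 1) + Nat.clog 2 d + 2)

/-- **The number of outmaps.** -/
theorem ncard_outmap_le (M : Matrix (Fin n) (Fin n) (MvPolynomial σ ℝ))
    (q : Fin n → MvPolynomial σ ℝ) (d : ℕ) (hd : 1 ≤ d)
    (hM : ∀ i j, (M i j).totalDegree ≤ d) (hq : ∀ i, (q i).totalDegree ≤ d) :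
    {s | ∃ x, IsP (evM M x) ∧ s = outmap (evM M x) (evV q x)}.ncard ≤
      2 ^ bound n (Fintype.card σ) d := by
  classical
  have hw := Pool.Agent.Helper448.Warren.ncard_sign_patterns_le
    (fun p : Finset (Fin n) × Fin n => num M q p.1 p.2) ((n + 1) * d)
    (fun p => deg_num M q d hM hq p.1 p.2)
  set Ψ : (σ → ℝ) → (Finset (Fin n) × Fin n) → SignType :=
    fun x p => SignType.sign (MvPolynomial.eval x (num M q p.1 p.2)) with hΨ
  set F : ((Finset (Fin n) × Fin n) → SignType) → (Finset (Fin n) → Finset (Fin n)) :=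
    fun ψ S => univ.filter fun i => if i ∈ S then ψ (S, i) ≠ 1 else ψ (S, i) = -1 with hF
  have hsub : {s | ∃ x, IsP (evM M x) ∧ s = outmap (evM M x) (evV q x)} ⊆
      F '' Set.range Ψ := by
    rintro s ⟨x, hx, rfl⟩
    refine ⟨Ψ x, ⟨x, rfl⟩, ?_⟩
    funext S
    ext i
    rw [mem_outmap_num hx]
    simp only [hF, hΨ, mem_filter, mem_univ, true_and, eval_num]
  refine (Set.ncard_le_ncard hsub (Set.toFinite _)).trans
    ((Set.ncard_image_le (Set.toFinite _)).trans (hw.trans ?_))
  have hc : Fintype.card (Finset (Fin n) × Fin n) = 2 ^ n * n := by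
    simp [Fintype.card_prod]
  rw [hc]
  unfold bound
  rw [mul_comm (Fintype.card σ), pow_mul]
  apply Nat.pow_le_pow_left
  have e1 : n + 1 ≤ 2 ^ Nat.clog 2 (n + 1) := Nat.le_pow_clog (by norm_num) _
  have e2 : d ≤ 2 ^ Nat.clog 2 d := Nat.le_pow_clog (by norm_num) _
  have e3 : 1 ≤ 2 ^ n := Nat.one_le_two_pow
  calc 4 * (2 ^ n * n) * ((n + 1) * d) + 2
      ≤ 4 * (2 ^ n * ((n + 1) * (n + 1)) * d) := by
        have h5 : 1 ≤ 2 ^ n * (n + 1) * d := by
          have : 0 < 2 ^ n * (n + 1) * d := by positivity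
          exact this
        have h6 : 4 * (2 ^ n * ((n + 1) * (n + 1)) * d) =
            4 * (2 ^ n * n) * ((n + 1) * d) + 4 * (2 ^ n * (n + 1) * d) := by ring
        rw [h6]
        omega
    _ ≤ 4 * (2 ^ n * (2 ^ Nat.clog 2 (n + 1) * 2 ^ Nat.clog 2 (n + 1)) * 2 ^ Nat.clog 2 d) := by
        gcongr
    _ = 2 ^ (n + 2 * Nat.clog 2 (n + 1) + Nat.clog 2 d + 2) := by
        ring

/-- **P-matrix linear complementarity problems.** -/
theorem strat_param (M : Matrix (Fin n) (Fin n) (MvPolynomial σ ℝ))
    (q : Fin n → MvPolynomial σ ℝ) (d : ℕ) (hd : 1 ≤ d)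
    (hM : ∀ i j, (M i j).totalDegree ≤ d) (hq : ∀ i, (q i).totalDegree ≤ d) :
    ∃ T : Strat (Finset (Fin n)) (Finset (Fin n)), ∀ x, IsP (evM M x) →
      outmap (evM M x) (evV q x) (T.result (outmap (evM M x) (evV q x))) = ∅ ∧
      T.count (outmap (evM M x) (evV q x)) ≤ bound n (Fintype.card σ) d := by
  classical
  have h := ncard_outmap_le M q d hd hM hq
  set C := {s | ∃ x, IsP (evM M x) ∧ s = outmap (evM M x) (evV q x)} with hC
  have hfin : C.Finite := Set.toFinite _
  obtain ⟨T, hT⟩ := halving (X := Finset (Fin n)) (Y := Finset (Fin n)) ∅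
    (bound n (Fintype.card σ) d) hfin.toFinset (by
      intro f hf
      rw [Set.Finite.mem_toFinset] at hf
      obtain ⟨x, hx, rfl⟩ := hf
      exact (outmap_uniqueSink hx _).bijective) (by
      rw [← Set.ncard_eq_toFinset_card _ hfin]
      exact h)
  exact ⟨T, fun x hx => hT _ (by rw [Set.Finite.mem_toFinset]; exact ⟨x, hx, rfl⟩)⟩

/-- One strategy for all P-matrices. -/
theorem strat_all (n : ℕ) :
    ∃ T : Strat (Finset (Fin n)) (Finset (Fin n)), ∀ (M : Matrix (Fin n) (Fin n) ℝ)
      (q : Fin n → ℝ), IsP M → outmap M q (T.result (outmap M q)) = ∅ ∧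
      T.count (outmap M q) ≤ bound n (n ^ 2 + n) 1 := by
  obtain ⟨T, hT⟩ := strat_param (σ := (Fin n × Fin n) ⊕ Fin n)
    (fun i j => MvPolynomial.X (Sum.inl (i, j))) (fun i => MvPolynomial.X (Sum.inr i)) 1 le_rfl
    (fun i j => (MvPolynomial.totalDegree_X _).le) (fun i => (MvPolynomial.totalDegree_X _).le)
  refine ⟨T, fun M q hM => ?_⟩
  have h := hT (Sum.elim (fun p => M p.1 p.2) q)
  have h1 : evM (fun i j => MvPolynomial.X (Sum.inl (i, j)))
      (Sum.elim (fun p => M p.1 p.2) q) = M := by
    ext i j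
    simp [evM]
  have h2 : evV (fun i => MvPolynomial.X (Sum.inr i))
      (Sum.elim (fun p : Fin n × Fin n => M p.1 p.2) q) = q := by
    ext i
    simp [evV]
  rw [h1, h2] at h
  have h3 := h hM
  have h4 : Fintype.card ((Fin n × Fin n) ⊕ Fin n) = n ^ 2 + n := by
    simp [sq]
  rw [h4] at h3
  exact h3

end Pool.Agent.V8H45.US
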