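import Mathlib
import Pool.Agent.V8H45.US.Count

/-!
# Linear feasibility by least squares
-/

set_option autoImplicit false

open Finset Matrix

namespace Pool.Agent.V8H45.US

namespace Strat

variable {X Y Y' : Type}

/-- other names for the answers -/
def relabel (h : X → Y' → Y) : Strat X Y → Strat X Y'
  | stop x => stop x
  | ask x next => ask x fun y' => (next (h x y')).relabel h

theorem relabel_result (h : X → Y' → Y) (g : X → Y') (T : Strat X Y) :
    (T.relabel h).result g = T.result fun x => h x (g x) := by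
  induction T with
  | stop x => rfl
  | ask x next ih => exact ih _

theorem relabel_count (h : X → Y' → Y) (g : X → Y') (T : Strat X Y) :
    (T.relabel h).count g = T.count fun x => h x (g x) := by
  induction T with
  | stop x => rfl
  | ask x next ih => simp only [relabel, count, ih]

end Strat

variable {m n : ℕ}

/-- the rows in `S`, zero outside -/
def rowsIn (A : Matrix (Fin m) (Fin n) ℝ) (S : Finset (Fin m)) : Matrix (Fin m) (Fin n) ℝ :=
  of fun i j => if i ∈ S then A i j else 0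

/-- the entries in `S`, zero outside -/
def entriesIn (b : Fin m → ℝ) (S : Finset (Fin m)) : Fin m → ℝ := fun i => if i ∈ S then b i else 0

/-- The minimizer of `∑ i ∈ S, ((A x) i - b i) ^ 2 + ε |x| ^ 2`. -/
noncomputable def ridge (A : Matrix (Fin m) (Fin n) ℝ) (b : Fin m → ℝ) (ε : ℝ)
    (S : Finset (Fin m)) : Fin n → ℝ :=
  (ε • (1 : Matrix (Fin n) (Fin n) ℝ) + (rowsIn A S)ᵀ * rowsIn A S)⁻¹ *ᵥ
    ((rowsIn A S)ᵀ *ᵥ entriesIn b S)

open Classical in
/-- The inequalities of `A x ≥ b` violated by this point. -/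
noncomputable def viol (A : Matrix (Fin m) (Fin n) ℝ) (b : Fin m → ℝ) (ε : ℝ)
    (S : Finset (Fin m)) : Finset (Fin m) := univ.filter fun i => (A *ᵥ ridge A b ε S) i < b i

theorem posDef_tr {k l : ℕ} (B : Matrix (Fin k) (Fin l) ℝ) {ε : ℝ} (hε : 0 < ε) :
    (ε • (1 : Matrix (Fin l) (Fin l) ℝ) + Bᵀ * B).PosDef := by
  have h1 : (ε • (1 : Matrix (Fin l) (Fin l) ℝ)).PosDef := PosDef.one.smul hε
  have h2 : (Bᵀ * B).PosSemidef := by
    have := posSemidef_conjTranspose_mul_self B
    rwa [conjTranspose_eq_transpose_of_trivial] at this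
  exact h1.add_posSemidef h2

theorem ridge_spec (A : Matrix (Fin m) (Fin n) ℝ) (b : Fin m → ℝ) {ε : ℝ} (hε : 0 < ε)
    (S : Finset (Fin m)) :
    (ε • (1 : Matrix (Fin n) (Fin n) ℝ) + (rowsIn A S)ᵀ * rowsIn A S) *ᵥ ridge A b ε S =
      (rowsIn A S)ᵀ *ᵥ entriesIn b S := by
  have h := (posDef_tr (rowsIn A S) hε).isUnit
  rw [isUnit_iff_isUnit_det] at h
  unfold ridge
  rw [mulVec_mulVec, mul_nonsing_inv _ h, one_mulVec]

theorem ridge_unique (A : Matrix (Fin m) (Fin n) ℝ) (b : Fin m → ℝ) {ε : ℝ} (hε : 0 < ε)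
    (S : Finset (Fin m)) (x : Fin n → ℝ)
    (hx : (ε • (1 : Matrix (Fin n) (Fin n) ℝ) + (rowsIn A S)ᵀ * rowsIn A S) *ᵥ x =
      (rowsIn A S)ᵀ *ᵥ entriesIn b S) : ridge A b ε S = x := by
  have h := (posDef_tr (rowsIn A S) hε).isUnit
  rw [isUnit_iff_isUnit_det] at h
  unfold ridge
  rw [← hx, mulVec_mulVec, nonsing_inv_mul _ h, one_mulVec]

/-- the matrix `A Aᵀ + ε` -/
def gram (A : Matrix (Fin m) (Fin n) ℝ) (ε : ℝ) : Matrix (Fin m) (Fin m) ℝ :=
  A * Aᵀ + ε • (1 : Matrix (Fin m) (Fin m) ℝ)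

theorem isP_gram (A : Matrix (Fin m) (Fin n) ℝ) {ε : ℝ} (hε : 0 < ε) : IsP (gram A ε) := by
  intro S
  have h1 := posDef_tr Aᵀ hε
  rw [transpose_transpose, add_comm] at h1
  exact (h1.submatrix (e := fun i : S => (i : Fin m)) Subtype.val_injective).det_pos

theorem gram_mulVec (A : Matrix (Fin m) (Fin n) ℝ) (ε : ℝ) (z : Fin m → ℝ) (i : Fin m) :
    (gram A ε *ᵥ z) i = (A *ᵥ (Aᵀ *ᵥ z)) i + ε * z i := by
  unfold gram
  rw [add_mulVec, ← mulVec_mulVec, smul_mulVec, one_mulVec]
  rfl

theorem ridge_eq (A : Matrix (Fin m) (Fin n) ℝ) (b : Fin m → ℝ) {ε : ℝ} (hε : 0 < ε)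
    (S : Finset (Fin m)) : ridge A b ε S = Aᵀ *ᵥ basic (gram A ε) (-b) S := by
  obtain ⟨h0, h1⟩ := basic_spec (isP_gram A hε) (-b) S
  set z := basic (gram A ε) (-b) S with hz
  apply ridge_unique A b hε
  rw [add_mulVec, smul_mulVec, one_mulVec, ← mulVec_mulVec]
  -- the residuals
  have h2 : entriesIn b S - rowsIn A S *ᵥ (Aᵀ *ᵥ z) = ε • z := by
    funext i
    by_cases hi : i ∈ S
    · have h3 := h1 i hi
      rw [gram_mulVec] at h3
      have h4 : (rowsIn A S *ᵥ (Aᵀ *ᵥ z)) i = (A *ᵥ (Aᵀ *ᵥ z)) i := by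
        simp [mulVec, dotProduct, rowsIn, hi]
      simp only [Pi.sub_apply, h4, entriesIn, hi, if_true, Pi.smul_apply, smul_eq_mul]
      simp only [Pi.neg_apply] at h3
      linarith
    · have h4 : (rowsIn A S *ᵥ (Aᵀ *ᵥ z)) i = 0 := by
        simp [mulVec, dotProduct, rowsIn, hi]
      rw [Pi.sub_apply, h4]
      simp [entriesIn, hi, h0 i hi]
  have h5 : (rowsIn A S)ᵀ *ᵥ z = Aᵀ *ᵥ z := by
    funext j
    simp only [mulVec, dotProduct, transpose_apply, rowsIn, of_apply]
    refine sum_congr rfl fun i _ => ?_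
    by_cases hi : i ∈ S
    · simp [hi]
    · simp [hi, h0 i hi]
  have h6 : (rowsIn A S)ᵀ *ᵥ (entriesIn b S - rowsIn A S *ᵥ (Aᵀ *ᵥ z)) = ε • (Aᵀ *ᵥ z) := by
    rw [h2, mulVec_smul, h5]
  rw [mulVec_sub] at h6
  rw [← h6]
  abel

theorem outmap_gram (A : Matrix (Fin m) (Fin n) ℝ) (b : Fin m → ℝ) {ε : ℝ} (hε : 0 < ε)
    (S : Finset (Fin m)) : outmap (gram A ε) (-b) S = symmDiff S (viol A b ε S) := by
  obtain ⟨h0, h1⟩ := basic_spec (isP_gram A hε) (-b) S
  ext i
  rw [mem_outmap, mem_symmDiff]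
  have hv : i ∈ viol A b ε S ↔
      (A *ᵥ (Aᵀ *ᵥ basic (gram A ε) (-b) S)) i < b i := by
    unfold viol
    rw [mem_filter, ridge_eq A b hε]
    simp
  rw [hv]
  have hg := gram_mulVec A ε (basic (gram A ε) (-b) S) i
  by_cases hi : i ∈ S
  · have h2 := h1 i hi
    rw [hg, Pi.neg_apply] at h2
    simp only [hi, if_true, true_and, not_true_eq_false, and_false, or_false, not_lt]
    constructor
    · intro h
      nlinarith
    · intro h
      by_contra hcon
      rw [not_le] at hcon
      have := mul_pos hε hcon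
      linarith
  · have h2 := h0 i hi
    rw [hg, h2, mul_zero, add_zero, Pi.neg_apply]
    simp only [hi, if_false, false_and, false_or, not_false_eq_true, and_true]
    constructor <;> intro h <;> linarith

/-- the values of polynomials -/
noncomputable def evA {σ : Type} (A : Matrix (Fin m) (Fin n) (MvPolynomial σ ℝ)) (x : σ → ℝ) :
    Matrix (Fin m) (Fin n) ℝ := fun i j => MvPolynomial.eval x (A i j)

/-- the number of evaluations for `N` parameters and degree `d` -/
def fbound (m N d : ℕ) : ℕ := min (bound m (m ^ 2 + m) 1) (bound m (N + 1) (2 * d))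

theorem strat_gram {σ : Type} [Fintype σ] [DecidableEq σ]
    (A : Matrix (Fin m) (Fin n) (MvPolynomial σ ℝ)) (b : Fin m → MvPolynomial σ ℝ) (d : ℕ)
    (hd : 1 ≤ d) (hA : ∀ i j, (A i j).totalDegree ≤ d) (hb : ∀ i, (b i).totalDegree ≤ d) :
    ∃ T : Strat (Finset (Fin m)) (Finset (Fin m)), ∀ (θ : σ → ℝ) (ε : ℝ), 0 < ε →
      outmap (gram (evA A θ) ε) (-evV b θ) (T.result (outmap (gram (evA A θ) ε) (-evV b θ))) = ∅ ∧
      T.count (outmap (gram (evA A θ) ε) (-evV b θ)) ≤ fbound m (Fintype.card σ) d := by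
  classical
  unfold fbound
  rcases le_total (bound m (m ^ 2 + m) 1) (bound m (Fintype.card σ + 1) (2 * d)) with h | h
  · rw [min_eq_left h]
    obtain ⟨T, hT⟩ := strat_all m
    exact ⟨T, fun θ ε hε => hT _ _ (isP_gram _ hε)⟩
  · rw [min_eq_right h]
    obtain ⟨T, hT⟩ := strat_param (n := m) (σ := Option σ)
      (fun i j => (∑ k, MvPolynomial.rename some (A i k) * MvPolynomial.rename some (A j k)) +
        if i = j then MvPolynomial.X none else 0)
      (fun i => - MvPolynomial.rename some (b i)) (2 * d) (by omega)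
      (by
        intro i j
        refine (MvPolynomial.totalDegree_add _ _).trans (max_le ?_ ?_)
        · refine (MvPolynomial.totalDegree_finsetSum _ _).trans (Finset.sup_le fun k _ => ?_)
          refine (MvPolynomial.totalDegree_mul _ _).trans ?_
          have h1 := (MvPolynomial.totalDegree_rename_le some (A i k)).trans (hA i k)
          have h2 := (MvPolynomial.totalDegree_rename_le some (A j k)).trans (hA j k)
          omega
        · split_ifs
          · rw [MvPolynomial.totalDegree_X]; omega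
          · simp)
      (by
        intro i
        rw [MvPolynomial.totalDegree_neg]
        have h1 := (MvPolynomial.totalDegree_rename_le some (b i)).trans (hb i)
        omega)
    refine ⟨T, fun θ ε hε => ?_⟩
    have h1 := hT (fun o => o.elim ε θ)
    have he : ∀ p : MvPolynomial σ ℝ,
        MvPolynomial.eval (fun o : Option σ => o.elim ε θ) (MvPolynomial.rename some p) =
          MvPolynomial.eval θ p := by
      intro p
      rw [MvPolynomial.eval_rename]
      rfl
    have h2 : evM (fun i j : Fin m => (∑ k, MvPolynomial.rename some (A i k) *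
        MvPolynomial.rename some (A j k)) + if i = j then MvPolynomial.X none else 0)
        (fun o : Option σ => o.elim ε θ) = gram (evA A θ) ε := by
      ext i j
      simp only [evM, map_add, map_sum, map_mul, he, gram,
        Matrix.add_apply, mul_apply, transpose_apply, Matrix.smul_apply, one_apply, smul_eq_mul,
        evA]
      congr 1
      split_ifs <;> simp
    have h3 : evV (fun i : Fin m => - MvPolynomial.rename some (b i))
        (fun o : Option σ => o.elim ε θ) = -evV b θ := by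
      funext i
      simp only [evV, map_neg, he, Pi.neg_apply]
    rw [h2, h3] at h1
    have h4 := h1 (isP_gram _ hε)
    rw [Fintype.card_option] at h4
    exact h4

theorem strat_viol {σ : Type} [Fintype σ] [DecidableEq σ]
    (A : Matrix (Fin m) (Fin n) (MvPolynomial σ ℝ)) (b : Fin m → MvPolynomial σ ℝ) (d : ℕ)
    (hd : 1 ≤ d) (hA : ∀ i j, (A i j).totalDegree ≤ d) (hb : ∀ i, (b i).totalDegree ≤ d) :
    ∃ T : Strat (Finset (Fin m)) (Finset (Fin m)), ∀ (θ : σ → ℝ) (ε : ℝ), 0 < ε →
      viol (evA A θ) (evV b θ) ε (T.result (viol (evA A θ) (evV b θ) ε)) =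
        T.result (viol (evA A θ) (evV b θ) ε) ∧
      T.count (viol (evA A θ) (evV b θ) ε) ≤ fbound m (Fintype.card σ) d := by
  obtain ⟨T, hT⟩ := strat_gram A b d hd hA hb
  refine ⟨T.relabel fun S V => symmDiff S V, fun θ ε hε => ?_⟩
  have h1 : (fun S => symmDiff S (viol (evA A θ) (evV b θ) ε S)) =
      outmap (gram (evA A θ) ε) (-evV b θ) := by
    funext S
    exact (outmap_gram _ _ hε S).symm
  rw [Strat.relabel_result, Strat.relabel_count, h1]
  obtain ⟨h2, h3⟩ := hT θ ε hε
  refine ⟨?_, h3⟩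
  rw [outmap_gram _ _ hε] at h2
  exact (symmDiff_eq_bot.1 h2).symm

end Pool.Agent.V8H45.US
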