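import Mathlib
import Pool.Agent.V8H45.US.Feas

/-!
# Linear feasibility by least squares: the limit
-/

set_option autoImplicit false

open Finset Matrix Filter Topology

namespace Pool.Agent.V8H45.US

variable {m n : ℕ}

theorem eventually_sign (p : Polynomial ℝ) :
    (∀ᶠ ε in 𝓝[>] (0 : ℝ), p.eval ε < 0) ∨ (∀ᶠ ε in 𝓝[>] (0 : ℝ), 0 ≤ p.eval ε) := by
  by_cases hp : p = 0
  · right
    subst hp
    simp
  obtain ⟨q, hq, hq0⟩ := Polynomial.exists_eq_pow_rootMultiplicity_mul_and_not_dvd p hp 0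
  rw [Polynomial.dvd_iff_isRoot, Polynomial.IsRoot.def] at hq0
  set k := Polynomial.rootMultiplicity 0 p
  have hev : ∀ ε : ℝ, p.eval ε = ε ^ k * q.eval ε := by
    intro ε
    rw [hq]
    simp
  have hcont : Tendsto (fun ε => q.eval ε) (𝓝[>] (0 : ℝ)) (𝓝 (q.eval 0)) :=
    (q.continuous.tendsto 0).mono_left nhdsWithin_le_nhds
  have hpos : ∀ᶠ ε in 𝓝[>] (0 : ℝ), 0 < ε := self_mem_nhdsWithin
  rcases lt_or_gt_of_ne hq0 with h | h
  · left
    filter_upwards [hcont.eventually_lt_const h, hpos] with ε h1 h2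
    rw [hev]
    exact mul_neg_of_pos_of_neg (pow_pos h2 k) h1
  · right
    filter_upwards [hcont.eventually_const_lt h, hpos] with ε h1 h2
    rw [hev]
    exact (mul_pos (pow_pos h2 k) h1).le

theorem ridge_cramer (A : Matrix (Fin m) (Fin n) ℝ) (b : Fin m → ℝ) {ε : ℝ} (hε : 0 < ε)
    (S : Finset (Fin m)) (j : Fin n) :
    cramer (ε • (1 : Matrix (Fin n) (Fin n) ℝ) + (rowsIn A S)ᵀ * rowsIn A S)
      ((rowsIn A S)ᵀ *ᵥ entriesIn b S) j =
    (ε • (1 : Matrix (Fin n) (Fin n) ℝ) + (rowsIn A S)ᵀ * rowsIn A S).det * ridge A b ε S j := by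
  have h := (posDef_tr (rowsIn A S) hε).isUnit
  rw [isUnit_iff_isUnit_det] at h
  unfold ridge
  rw [nonsing_inv_apply _ h, smul_mulVec, ← cramer_eq_adjugate_mulVec]
  simp only [Pi.smul_apply]
  rw [smul_eq_mul, ← mul_assoc, h.mul_val_inv, one_mul]

/-- The sign of the residual does not change for small `ε`. -/
theorem eventually_resid (A : Matrix (Fin m) (Fin n) ℝ) (b : Fin m → ℝ) (S : Finset (Fin m))
    (i : Fin m) : (∀ᶠ ε in 𝓝[>] (0 : ℝ), (A *ᵥ ridge A b ε S) i < b i) ∨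
      (∀ᶠ ε in 𝓝[>] (0 : ℝ), ¬ (A *ᵥ ridge A b ε S) i < b i) := by
  classical
  set G := (rowsIn A S)ᵀ * rowsIn A S with hG
  set c := (rowsIn A S)ᵀ *ᵥ entriesIn b S with hc
  set Bx : Matrix (Fin n) (Fin n) (Polynomial ℝ) :=
    of fun i j => (if i = j then Polynomial.X else 0) + Polynomial.C (G i j) with hBx
  set cx : Fin n → Polynomial ℝ := fun j => Polynomial.C (c j) with hcx
  have hB : ∀ ε : ℝ, (Polynomial.evalRingHom ε).mapMatrix Bx =
      ε • (1 : Matrix (Fin n) (Fin n) ℝ) + G := by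
    intro ε
    ext a b'
    simp only [hBx, RingHom.mapMatrix_apply, map_apply, of_apply,
      Polynomial.coe_evalRingHom, Matrix.add_apply, Matrix.smul_apply, one_apply]
    split_ifs <;> simp
  have hcr : ∀ (ε : ℝ) j, (cramer Bx cx j).eval ε =
      cramer (ε • (1 : Matrix (Fin n) (Fin n) ℝ) + G) c j := by
    intro ε j
    rw [cramer_apply, cramer_apply, ← Polynomial.coe_evalRingHom, RingHom.map_det]
    congr 1
    ext a b'
    rw [← hB]
    simp only [RingHom.mapMatrix_apply, map_apply, updateCol_apply, hcx]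
    split_ifs <;> simp
  have hdet : ∀ ε : ℝ, Bx.det.eval ε = (ε • (1 : Matrix (Fin n) (Fin n) ℝ) + G).det := by
    intro ε
    rw [← Polynomial.coe_evalRingHom, RingHom.map_det, hB]
  set p : Polynomial ℝ := ∑ j, Polynomial.C (A i j) * cramer Bx cx j -
    Polynomial.C (b i) * Bx.det with hp
  have hev : ∀ ε : ℝ, 0 < ε → p.eval ε =
      (ε • (1 : Matrix (Fin n) (Fin n) ℝ) + G).det * ((A *ᵥ ridge A b ε S) i - b i) := by
    intro ε hε
    rw [hp, Polynomial.eval_sub, Polynomial.eval_finsetSum, Polynomial.eval_mul,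
      Polynomial.eval_C, hdet]
    simp only [Polynomial.eval_mul, Polynomial.eval_C, hcr]
    have : ∀ j, cramer (ε • (1 : Matrix (Fin n) (Fin n) ℝ) + G) c j =
        (ε • (1 : Matrix (Fin n) (Fin n) ℝ) + G).det * ridge A b ε S j :=
      fun j => ridge_cramer A b hε S j
    simp only [this, mulVec, dotProduct, mul_sub, mul_sum]
    congr 1
    · exact sum_congr rfl fun j _ => by ring
    · ring
  have hpos : ∀ᶠ ε in 𝓝[>] (0 : ℝ), 0 < ε := self_mem_nhdsWithin
  rcases eventually_sign p with h | h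
  · left
    filter_upwards [h, hpos] with ε h1 h2
    rw [hev ε h2] at h1
    have h3 := (posDef_tr (rowsIn A S) h2).det_pos
    by_contra hcon
    rw [not_lt] at hcon
    have := mul_nonneg h3.le (sub_nonneg.2 hcon)
    linarith
  · right
    filter_upwards [h, hpos] with ε h1 h2
    rw [hev ε h2] at h1
    have h3 := (posDef_tr (rowsIn A S) h2).det_pos
    intro hcon
    have := mul_neg_of_pos_of_neg h3 (sub_neg.2 hcon)
    linarith

open Classical in
/-- The inequalities of `A x ≥ b` violated by the minimizer of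
`∑ i ∈ S, ((A x) i - b i) ^ 2 + ε |x| ^ 2` for all sufficiently small `ε > 0`. -/
noncomputable def viol₀ (A : Matrix (Fin m) (Fin n) ℝ) (b : Fin m → ℝ) (S : Finset (Fin m)) :
    Finset (Fin m) :=
  univ.filter fun i => ∀ᶠ ε in 𝓝[>] (0 : ℝ), (A *ᵥ ridge A b ε S) i < b i

theorem eventually_viol (A : Matrix (Fin m) (Fin n) ℝ) (b : Fin m → ℝ) :
    ∀ᶠ ε in 𝓝[>] (0 : ℝ), viol A b ε = viol₀ A b := by
  have h : ∀ S i, ∀ᶠ ε in 𝓝[>] (0 : ℝ), (i ∈ viol A b ε S ↔ i ∈ viol₀ A b S) := by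
    intro S i
    rcases eventually_resid A b S i with h | h
    · filter_upwards [h] with ε hε
      simp [viol, viol₀, h, hε]
    · have h2 : ¬ ∀ᶠ ε in 𝓝[>] (0 : ℝ), (A *ᵥ ridge A b ε S) i < b i := by
        intro hcon
        obtain ⟨ε, h3, h4⟩ := (h.and hcon).exists
        exact h3 h4
      filter_upwards [h] with ε hε
      simp [viol, viol₀, h2, hε]
  have h2 : ∀ᶠ ε in 𝓝[>] (0 : ℝ), ∀ S i, (i ∈ viol A b ε S ↔ i ∈ viol₀ A b S) := by
    rw [eventually_all]
    intro S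
    rw [eventually_all]
    exact h S
  filter_upwards [h2] with ε hε
  funext S
  ext i
  exact hε S i

/-- the positive parts of the residuals -/
noncomputable def resid (A : Matrix (Fin m) (Fin n) ℝ) (b : Fin m → ℝ) (x : Fin n → ℝ) :
    Fin m → ℝ := fun i => max 0 (b i - (A *ᵥ x) i)

theorem ridge_normal (A : Matrix (Fin m) (Fin n) ℝ) (b : Fin m → ℝ) {ε : ℝ} (hε : 0 < ε)
    (S : Finset (Fin m)) (hS : viol A b ε S = S) :
    ε • ridge A b ε S = Aᵀ *ᵥ resid A b (ridge A b ε S) := by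
  have h := ridge_spec A b hε S
  set x := ridge A b ε S with hx
  rw [add_mulVec, smul_mulVec, one_mulVec, ← mulVec_mulVec] at h
  have h1 : ε • x = (rowsIn A S)ᵀ *ᵥ (entriesIn b S - rowsIn A S *ᵥ x) := by
    rw [mulVec_sub, ← h]
    abel
  rw [h1]
  have hmem : ∀ i, i ∈ S ↔ (A *ᵥ x) i < b i := by
    intro i
    conv_lhs => rw [← hS]
    simp [viol, hx]
  funext j
  simp only [mulVec, dotProduct, transpose_apply, rowsIn, of_apply, Pi.sub_apply, resid,
    entriesIn]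
  refine sum_congr rfl fun i _ => ?_
  by_cases hi : i ∈ S
  · have h2 := (hmem i).1 hi
    simp only [mulVec, dotProduct] at h2
    simp only [hi, if_true]
    rw [max_eq_right (by linarith)]
  · have h2 : ¬ (A *ᵥ x) i < b i := fun h3 => hi ((hmem i).2 h3)
    rw [not_lt] at h2
    simp only [mulVec, dotProduct] at h2
    simp only [hi, if_false, zero_mul]
    rw [max_eq_left (by linarith), mul_zero]

/-- For `ε > 0` one gets the minimizer of `∑ i, max 0 (b i - (A x) i) ^ 2 + ε |x| ^ 2`. -/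
theorem ridge_minimizes (A : Matrix (Fin m) (Fin n) ℝ) (b : Fin m → ℝ) {ε : ℝ} (hε : 0 < ε)
    (S : Finset (Fin m)) (hS : viol A b ε S = S) (u : Fin n → ℝ) :
    ∑ i, max 0 (b i - (A *ᵥ ridge A b ε S) i) ^ 2 + ε * (ridge A b ε S ⬝ᵥ ridge A b ε S) ≤
      ∑ i, max 0 (b i - (A *ᵥ u) i) ^ 2 + ε * (u ⬝ᵥ u) := by
  have h := ridge_normal A b hε S hS
  set x := ridge A b ε S with hx
  have h1 : ∀ s t : ℝ, max 0 s ^ 2 + 2 * (max 0 s * (t - s)) ≤ max 0 t ^ 2 := by
    intro s t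
    rcases le_total 0 s with hs | hs
    · rw [max_eq_right hs]
      rcases le_total 0 t with ht | ht
      · rw [max_eq_right ht]; nlinarith [sq_nonneg (s - t)]
      · rw [max_eq_left ht]; nlinarith
    · rw [max_eq_left hs]
      nlinarith [sq_nonneg (max 0 t)]
  have h2 : ∑ i, max 0 (b i - (A *ᵥ x) i) ^ 2 +
      2 * ∑ i, resid A b x i * ((A *ᵥ x) i - (A *ᵥ u) i) ≤ ∑ i, max 0 (b i - (A *ᵥ u) i) ^ 2 := by
    rw [mul_sum, ← sum_add_distrib]
    refine sum_le_sum fun i _ => ?_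
    have := h1 (b i - (A *ᵥ x) i) (b i - (A *ᵥ u) i)
    unfold resid
    have e : b i - (A *ᵥ u) i - (b i - (A *ᵥ x) i) = (A *ᵥ x) i - (A *ᵥ u) i := by ring
    rw [e] at this
    exact this
  have h3 : ∑ i, resid A b x i * ((A *ᵥ x) i - (A *ᵥ u) i) = ε * (x ⬝ᵥ (x - u)) := by
    have e1 : ∑ i, resid A b x i * ((A *ᵥ x) i - (A *ᵥ u) i) = resid A b x ⬝ᵥ (A *ᵥ (x - u)) := by
      rw [mulVec_sub]
      rfl
    rw [e1, dotProduct_mulVec, ← mulVec_transpose, ← h, smul_dotProduct, smul_eq_mul]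
  have h4 : 0 ≤ (x - u) ⬝ᵥ (x - u) := sum_nonneg fun i _ => mul_self_nonneg _
  have h5 : (x - u) ⬝ᵥ (x - u) = x ⬝ᵥ x - 2 * (x ⬝ᵥ u) + u ⬝ᵥ u := by
    rw [sub_dotProduct, dotProduct_sub, dotProduct_sub, dotProduct_comm u x]
    ring
  have h6 : x ⬝ᵥ (x - u) = x ⬝ᵥ x - x ⬝ᵥ u := dotProduct_sub _ _ _
  rw [h3, h6] at h2
  have h7 := mul_nonneg hε.le h4
  rw [h5] at h7
  linarith

/-- The limit of the minimizers. -/
theorem ridge_tendsto (A : Matrix (Fin m) (Fin n) ℝ) (b : Fin m → ℝ) (S : Finset (Fin m)) :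
    ∃ u : Fin n → ℝ, Tendsto (fun ε => ridge A b ε S) (𝓝[>] 0) (𝓝 u) ∧
      (∃ v, u = (rowsIn A S)ᵀ *ᵥ v) ∧
      (rowsIn A S)ᵀ *ᵥ (rowsIn A S *ᵥ u) = (rowsIn A S)ᵀ *ᵥ entriesIn b S := by
  set B := rowsIn A S with hB
  set G := Bᵀ * B with hG
  have hGt : Gᵀ = G := by rw [hG, transpose_mul, transpose_transpose]
  have hrange : LinearMap.range (G * G).mulVecLin = LinearMap.range Bᵀ.mulVecLin := by
    apply Submodule.eq_of_le_of_finrank_eq
    · rintro _ ⟨x, rfl⟩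
      exact ⟨B *ᵥ (G *ᵥ x), by
        simp only [mulVecLin_apply, ← mulVec_mulVec, hG]⟩
    · have h1 : (G * G).rank = G.rank := by
        have := rank_transpose_mul_self G
        rwa [hGt] at this
      have h2 : G.rank = B.rank := rank_transpose_mul_self B
      have h3 : Bᵀ.rank = B.rank := rank_transpose B
      exact (h1.trans h2).trans h3.symm
  obtain ⟨v, hv⟩ : ∃ v, (G * G) *ᵥ v = Bᵀ *ᵥ entriesIn b S := by
    have : Bᵀ *ᵥ entriesIn b S ∈ LinearMap.range (G * G).mulVecLin := by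
      rw [hrange]
      exact ⟨entriesIn b S, rfl⟩
    obtain ⟨v, hv⟩ := this
    exact ⟨v, hv⟩
  rw [← mulVec_mulVec] at hv
  refine ⟨G *ᵥ v, ?_, ⟨B *ᵥ v, by rw [hG, mulVec_mulVec]⟩, ?_⟩
  · -- the remainder
    set g : ℝ → Fin n → ℝ := fun ε => (ε • (1 : Matrix (Fin n) (Fin n) ℝ) + G)⁻¹ *ᵥ v with hg
    have hpos : ∀ᶠ ε in 𝓝[>] (0 : ℝ), 0 < ε := self_mem_nhdsWithin
    have hgs : ∀ ε : ℝ, 0 < ε → ε • g ε + G *ᵥ g ε = v := by
      intro ε hε
      have h := (posDef_tr B hε).isUnit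
      rw [isUnit_iff_isUnit_det] at h
      have h1 : (ε • (1 : Matrix (Fin n) (Fin n) ℝ) + G) *ᵥ g ε = v := by
        rw [hg]
        simp only
        rw [mulVec_mulVec, mul_nonsing_inv _ h, one_mulVec]
      rw [add_mulVec, smul_mulVec, one_mulVec] at h1
      exact h1
    have hridge : ∀ ε : ℝ, 0 < ε → ridge A b ε S = G *ᵥ v - ε • v + ε ^ 2 • g ε := by
      intro ε hε
      apply ridge_unique A b hε
      rw [← hB, ← hG, ← hv, add_mulVec, smul_mulVec, one_mulVec, mulVec_add, mulVec_sub,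
        mulVec_smul, mulVec_smul]
      have h1 : G *ᵥ g ε = v - ε • g ε := by
        rw [← hgs ε hε]; abel_nf
      rw [h1]
      simp only [smul_add, smul_sub, smul_smul]
      have e : ε * ε ^ 2 = ε ^ 2 * ε := by ring
      have e2 : ε * ε = ε ^ 2 := by ring
      rw [e, e2]
      abel
    have hbd : ∀ (ε : ℝ) (j : Fin n), 0 < ε → (ε * g ε j) ^ 2 ≤ v ⬝ᵥ v := by
      intro ε j hε
      have h1 := hgs ε hε
      have h2 : g ε ⬝ᵥ v = ε * (g ε ⬝ᵥ g ε) + g ε ⬝ᵥ (G *ᵥ g ε) := by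
        conv_lhs => rw [← h1]
        rw [dotProduct_add, dotProduct_smul, smul_eq_mul]
      have h3 : 0 ≤ g ε ⬝ᵥ (G *ᵥ g ε) := by
        rw [hG, ← mulVec_mulVec, dotProduct_mulVec, vecMul_transpose]
        exact sum_nonneg fun i _ => mul_self_nonneg _
      have h4 : 0 ≤ (ε • g ε - v) ⬝ᵥ (ε • g ε - v) := sum_nonneg fun i _ => mul_self_nonneg _
      have h5 : (ε • g ε - v) ⬝ᵥ (ε • g ε - v) =
          ε ^ 2 * (g ε ⬝ᵥ g ε) - 2 * (ε * (g ε ⬝ᵥ v)) + v ⬝ᵥ v := by
        rw [sub_dotProduct, dotProduct_sub, dotProduct_sub, smul_dotProduct, smul_dotProduct,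
          dotProduct_smul, dotProduct_smul, dotProduct_comm v (g ε)]
        simp only [smul_eq_mul]
        ring
      have h6 : (g ε j) ^ 2 ≤ g ε ⬝ᵥ g ε := by
        have := single_le_sum (f := fun i => g ε i * g ε i) (fun i _ => mul_self_nonneg _)
          (mem_univ j)
        simpa [dotProduct, sq] using this
      have h7 : ε ^ 2 * (g ε ⬝ᵥ g ε) ≤ ε * (g ε ⬝ᵥ v) := by
        rw [h2]
        have := mul_nonneg hε.le h3
        nlinarith
      have h8 : (ε * g ε j) ^ 2 ≤ ε ^ 2 * (g ε ⬝ᵥ g ε) := by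
        rw [mul_pow]
        exact mul_le_mul_of_nonneg_left h6 (sq_nonneg _)
      linarith
    rw [tendsto_pi_nhds]
    intro j
    have hlim : Tendsto (fun ε : ℝ => (G *ᵥ v) j - ε * v j + ε ^ 2 * g ε j) (𝓝[>] 0)
        (𝓝 ((G *ᵥ v) j - 0 * v j + 0)) := by
      have hid : Tendsto (fun ε : ℝ => ε) (𝓝[>] 0) (𝓝 0) :=
        tendsto_id.mono_left nhdsWithin_le_nhds
      refine ((tendsto_const_nhds.sub (hid.mul_const _))).add ?_
      rw [tendsto_zero_iff_abs_tendsto_zero]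
      refine squeeze_zero' (Eventually.of_forall fun ε => abs_nonneg _) ?_
        (g := fun ε => ε * Real.sqrt (v ⬝ᵥ v)) (by simpa using hid.mul_const (Real.sqrt (v ⬝ᵥ v)))
      filter_upwards [hpos] with ε hε
      have h1 := hbd ε j hε
      have h2 : |ε * g ε j| ≤ Real.sqrt (v ⬝ᵥ v) := Real.abs_le_sqrt h1
      have h3 : ε ^ 2 * g ε j = ε * (ε * g ε j) := by ring
      simp only [Function.comp_apply]
      rw [h3, abs_mul, abs_of_pos hε]
      exact mul_le_mul_of_nonneg_left h2 hε.le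
    rw [zero_mul, sub_zero, add_zero] at hlim
    refine hlim.congr' ?_
    filter_upwards [hpos] with ε hε
    rw [hridge ε hε]
    simp
  · rw [mulVec_mulVec, ← hG]
    exact hv

/-- Reading off the answer. -/
theorem answer (A : Matrix (Fin m) (Fin n) ℝ) (b : Fin m → ℝ) (S : Finset (Fin m))
    (hS : viol₀ A b S = S) (u : Fin n → ℝ)
    (hu : Tendsto (fun ε => ridge A b ε S) (𝓝[>] 0) (𝓝 u)) :
    b ≤ A *ᵥ u ∨ (0 ≤ resid A b u ∧ vecMul (resid A b u) A = 0 ∧ 0 < resid A b u ⬝ᵥ b) := by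
  have hpos : ∀ᶠ ε in 𝓝[>] (0 : ℝ), 0 < ε := self_mem_nhdsWithin
  have hy : vecMul (resid A b u) A = 0 := by
    rw [← mulVec_transpose]
    funext j
    have h1 : Tendsto (fun ε => (Aᵀ *ᵥ resid A b (ridge A b ε S)) j) (𝓝[>] 0)
        (𝓝 ((Aᵀ *ᵥ resid A b u) j)) := by
      have hc : Continuous fun x : Fin n → ℝ => (Aᵀ *ᵥ resid A b x) j := by
        unfold resid
        simp only [mulVec, dotProduct]
        fun_prop
      exact (hc.tendsto u).comp hu
    have h2 : Tendsto (fun ε : ℝ => (ε • ridge A b ε S) j) (𝓝[>] 0) (𝓝 0) := by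
      have hid : Tendsto (fun ε : ℝ => ε) (𝓝[>] 0) (𝓝 0) :=
        tendsto_id.mono_left nhdsWithin_le_nhds
      have h3 := hid.mul ((tendsto_pi_nhds.1 hu) j)
      simpa using h3
    refine tendsto_nhds_unique h1 (h2.congr' ?_)
    filter_upwards [hpos, eventually_viol A b] with ε hε hv
    rw [ridge_normal A b hε S (by rw [hv]; exact hS)]
  by_cases hb : b ≤ A *ᵥ u
  · exact Or.inl hb
  · right
    refine ⟨fun i => le_max_left _ _, hy, ?_⟩
    have h1 : resid A b u ⬝ᵥ b = ∑ i, resid A b u i * resid A b u i := by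
      have h2 : resid A b u ⬝ᵥ (A *ᵥ u) = 0 := by
        rw [dotProduct_mulVec, hy, zero_dotProduct]
      have h3 : resid A b u ⬝ᵥ b = resid A b u ⬝ᵥ (b - A *ᵥ u) := by
        rw [dotProduct_sub, h2, sub_zero]
      rw [h3]
      refine sum_congr rfl fun i _ => ?_
      simp only [Pi.sub_apply, resid]
      rcases le_total 0 (b i - (A *ᵥ u) i) with h | h
      · rw [max_eq_right h]
      · rw [max_eq_left h, zero_mul, zero_mul]
    rw [h1]
    rw [Pi.le_def] at hb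
    push Not at hb
    obtain ⟨i, hi⟩ := hb
    refine sum_pos' (fun j _ => mul_self_nonneg _) ⟨i, mem_univ i, ?_⟩
    have : 0 < resid A b u i := by
      unfold resid
      exact lt_max_of_lt_right (by linarith)
    exact mul_pos this this

theorem strat_viol₀ {σ : Type} [Fintype σ] [DecidableEq σ]
    (A : Matrix (Fin m) (Fin n) (MvPolynomial σ ℝ)) (b : Fin m → MvPolynomial σ ℝ) (d : ℕ)
    (hd : 1 ≤ d) (hA : ∀ i j, (A i j).totalDegree ≤ d) (hb : ∀ i, (b i).totalDegree ≤ d) :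
    ∃ T : Strat (Finset (Fin m)) (Finset (Fin m)), ∀ θ : σ → ℝ,
      (∀ ε : ℝ, 0 < ε → viol (evA A θ) (evV b θ) ε (T.result (viol (evA A θ) (evV b θ) ε)) =
        T.result (viol (evA A θ) (evV b θ) ε) ∧
        T.count (viol (evA A θ) (evV b θ) ε) ≤ fbound m (Fintype.card σ) d) ∧
      viol₀ (evA A θ) (evV b θ) (T.result (viol₀ (evA A θ) (evV b θ))) =
        T.result (viol₀ (evA A θ) (evV b θ)) ∧
      T.count (viol₀ (evA A θ) (evV b θ)) ≤ fbound m (Fintype.card σ) d := by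
  obtain ⟨T, hT⟩ := strat_viol A b d hd hA hb
  refine ⟨T, fun θ => ⟨fun ε hε => hT θ ε hε, ?_⟩⟩
  have hpos : ∀ᶠ ε in 𝓝[>] (0 : ℝ), 0 < ε := self_mem_nhdsWithin
  obtain ⟨ε, hε, hv⟩ := (hpos.and (eventually_viol (evA A θ) (evV b θ))).exists
  rw [← hv]
  exact hT θ ε hε

end Pool.Agent.V8H45.US
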